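import Mathlib
import Pool.Agent.Z894.CP.Stm

/-!
# Project CP, part 3: one step (abstract form over the field `F`)
-/

set_option autoImplicit false

open MvPolynomial

namespace Pool.Agent.Y170.CP

open Pool.Agent.TH922.KC Pool.Agent.Z894.CP

/-! ### Iterated preimages of a subfield under a derivation -/

/-- iterated preimages of a subfield under a derivation -/
def Sf {F : Type} [Field F] (D : Derivation ℤ F F) (M : Subfield F) : ℕ → Subfield F
  | 0 => M
  | r + 1 =>
    { carrier := {a | a ∈ Sf D M r ∧ D a ∈ Sf D M r}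
      mul_mem' := by
        rintro a b ⟨ha, ha'⟩ ⟨hb, hb'⟩
        refine ⟨mul_mem ha hb, ?_⟩
        rw [Derivation.leibniz]
        exact add_mem (mul_mem ha hb') (mul_mem hb ha')
      one_mem' := ⟨one_mem _, by rw [Derivation.map_one_eq_zero]; exact zero_mem _⟩
      add_mem' := by
        rintro a b ⟨ha, ha'⟩ ⟨hb, hb'⟩
        refine ⟨add_mem ha hb, ?_⟩
        rw [map_add]
        exact add_mem ha' hb'
      zero_mem' := ⟨zero_mem _, by rw [map_zero]; exact zero_mem _⟩
      neg_mem' := by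
        rintro a ⟨ha, ha'⟩
        refine ⟨neg_mem ha, ?_⟩
        rw [map_neg]
        exact neg_mem ha'
      inv_mem' := by
        rintro a ⟨ha, ha'⟩
        refine ⟨inv_mem ha, ?_⟩
        rw [Derivation.leibniz_inv]
        exact mul_mem (neg_mem (pow_mem (inv_mem ha) 2)) ha' }

section Sf

variable {F : Type} [Field F] (D : Derivation ℤ F F) (M : Subfield F)

theorem Sf_succ_mem {r : ℕ} {a : F} : a ∈ Sf D M (r + 1) ↔ a ∈ Sf D M r ∧ D a ∈ Sf D M r :=
  Iff.rfl

theorem Sf_anti {r r' : ℕ} (h : r ≤ r') : Sf D M r' ≤ Sf D M r := by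
  induction h with
  | refl => exact le_refl _
  | step _ ih => exact fun a ha => ih ((Sf_succ_mem D M).1 ha).1

theorem Sf_le (r : ℕ) : Sf D M r ≤ M := Sf_anti D M (Nat.zero_le r)

theorem Sf_const {a : F} (ha : a ∈ M) (h : D a = 0) (r : ℕ) : a ∈ Sf D M r := by
  induction r with
  | zero => exact ha
  | succ r ih => exact ⟨ih, by rw [h]; exact zero_mem _⟩

theorem Sf_of_D {a : F} (ha : a ∈ M) (h : ∀ r, D a ∈ Sf D M r) (r : ℕ) : a ∈ Sf D M r := by
  induction r with
  | zero => exact ha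
  | succ r ih => exact ⟨ih, h r⟩

theorem Sf_of_iter (r : ℕ) : ∀ a : F, (∀ s ≤ r, D^[s] a ∈ M) → a ∈ Sf D M r := by
  induction r with
  | zero => intro a h; exact h 0 le_rfl
  | succ r ih =>
    intro a h
    refine ⟨ih a fun s hs => h s (by omega), ih (D a) fun s hs => ?_⟩
    have := h (s + 1) (by omega)
    rwa [Function.iterate_succ_apply] at this

theorem iter_smul (P : ℕ) (δ x : F) (hδ : δ ∈ Sf D M P) (hx : x ∈ Sf D M (P + 1)) :
    ∀ s ≤ P + 1, (δ⁻¹ • D)^[s] x ∈ Sf D M (P + 1 - s) := by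
  intro s
  induction s with
  | zero => intro _; exact hx
  | succ s ih =>
    intro hs
    have h1 := ih (by omega)
    rw [Function.iterate_succ_apply']
    have e : P + 1 - s = (P + 1 - (s + 1)) + 1 := by omega
    rw [e] at h1
    have h2 := ((Sf_succ_mem D M).1 h1).2
    show δ⁻¹ * D _ ∈ _
    refine mul_mem (inv_mem ?_) h2
    exact Sf_anti D M (by omega) hδ

end Sf

/-- `p`-th powers -/
def Pw (F : Type) [Field F] (p : ℕ) [Fact p.Prime] [CharP F p] : Subfield F where
  carrier := {z | ∃ w : F, w ^ p = z}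
  mul_mem' := by
    rintro _ _ ⟨a, rfl⟩ ⟨b, rfl⟩
    exact ⟨a * b, mul_pow a b p⟩
  one_mem' := ⟨1, one_pow p⟩
  add_mem' := by
    rintro _ _ ⟨a, rfl⟩ ⟨b, rfl⟩
    exact ⟨a + b, add_pow_char a b p⟩
  zero_mem' := ⟨0, zero_pow (Fact.out : p.Prime).ne_zero⟩
  neg_mem' := by
    rintro _ ⟨a, rfl⟩
    refine ⟨-a, ?_⟩
    have h := add_pow_char a (-a) p
    rw [add_neg_cancel, zero_pow (Fact.out : p.Prime).ne_zero] at h
    exact (neg_eq_of_add_eq_zero_right h.symm).symm
  inv_mem' := by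
    rintro _ ⟨a, rfl⟩
    exact ⟨a⁻¹, inv_pow a p⟩

theorem mem_Pw {F : Type} [Field F] {p : ℕ} [Fact p.Prime] [CharP F p] {z : F} :
    z ∈ Pw F p ↔ ∃ w : F, w ^ p = z := Iff.rfl

theorem D_Pw {F : Type} [Field F] {p : ℕ} [Fact p.Prime] [CharP F p] (D : Derivation ℤ F F)
    {z : F} (h : z ∈ Pw F p) : D z = 0 := by
  obtain ⟨w, rfl⟩ := h
  rw [Derivation.leibniz_pow, nsmul_eq_mul, CharP.cast_eq_zero, zero_mul]

/-- algebraic closure of a subfield -/
def Ac {k0 F : Type} [Field k0] [Field F] [Algebra k0 F] (E : IntermediateField k0 F) :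
    Subfield F where
  carrier := {z | IsAlgebraic E z}
  mul_mem' := fun ha hb => ha.mul hb
  one_mem' := isAlgebraic_one
  add_mem' := fun ha hb => ha.add hb
  zero_mem' := isAlgebraic_zero
  neg_mem' := fun ha => ha.neg
  inv_mem' := fun _ ha => ha.inv

theorem mem_Ac {k0 F : Type} [Field k0] [Field F] [Algebra k0 F] {E : IntermediateField k0 F}
    {z : F} : z ∈ Ac E ↔ IsAlgebraic E z := Iff.rfl

theorem Ac_of_mem {k0 F : Type} [Field k0] [Field F] [Algebra k0 F] {E : IntermediateField k0 F}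
    {z : F} (h : z ∈ E) : z ∈ Ac E :=
  isAlgebraic_algebraMap (⟨z, h⟩ : E)

/-! ### Linear forms -/

section lin

variable {k0 F : Type} [Field k0] [Field F] [Algebra k0 F] {n N : ℕ}

/-- the value of a linear form -/
def lx (L0 : Fin (N + 1) → Fin (n + 1) → k0) (x : Fin (n + 1) → F) (a : Fin (N + 1)) : F :=
  ∑ j, algebraMap k0 F (L0 a j) * x j

theorem lin_sub (L0 : Fin (N + 1) → Fin (n + 1) → k0) (x : Fin (n + 1) → F)
    (S : Finset (Fin (N + 1)))
    (hS : Submodule.span k0 (L0 '' S) = ⊤) (W : Submodule k0 F) (h : ∀ a ∈ S, lx L0 x a ∈ W)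
    (j : Fin (n + 1)) : x j ∈ W := by
  have h1 : Submodule.span k0 (L0 '' S) ≤ W.comap (Fintype.linearCombination k0 x) := by
    rw [Submodule.span_le]
    rintro _ ⟨a, ha, rfl⟩
    show Fintype.linearCombination k0 x (L0 a) ∈ W
    rw [Fintype.linearCombination_apply]
    have h2 := h a ha
    unfold lx at h2
    simpa only [Algebra.smul_def] using h2
  rw [hS] at h1
  have h2 : Fintype.linearCombination k0 x (Pi.single j 1) ∈ W := h1 Submodule.mem_top
  rw [Fintype.linearCombination_apply] at h2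
  rw [Finset.sum_eq_single j] at h2
  · simpa using h2
  · intro i _ hi
    rw [Pi.single_eq_of_ne hi, zero_smul]
  · intro hj
    exact absurd (Finset.mem_univ j) hj

theorem lin_field (L0 : Fin (N + 1) → Fin (n + 1) → k0) (x : Fin (n + 1) → F)
    (S : Finset (Fin (N + 1)))
    (hS : Submodule.span k0 (L0 '' S) = ⊤) (M : Subfield F)
    (hM : ∀ c : k0, algebraMap k0 F c ∈ M) (z : F)
    (h : ∀ a ∈ S, lx L0 x a / z ∈ M) (j : Fin (n + 1)) : x j / z ∈ M := by
  let W : Submodule k0 F :=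
    { carrier := {v | v / z ∈ M}
      add_mem' := by
        intro a b ha hb
        show (a + b) / z ∈ M
        rw [add_div]
        exact add_mem ha hb
      zero_mem' := by
        show (0 : F) / z ∈ M
        rw [zero_div]
        exact zero_mem _
      smul_mem' := by
        intro c a ha
        show (c • a) / z ∈ M
        rw [Algebra.smul_def, mul_div_assoc]
        exact mul_mem (hM c) ha }
  exact lin_sub L0 x S hS W h j

end lin

theorem transc_adjoin {k0 κ F ι : Type} [Field k0] [Field κ] [Field F] [Algebra k0 κ]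
    [Algebra κ F] [Algebra k0 F] [IsScalarTower k0 κ F] (cf : ι → κ) (a : F)
    (h : Transcendental κ a) :
    Transcendental (Algebra.adjoin k0 (Set.range (fun s => algebraMap κ F (cf s)))) a := by
  intro hal
  apply h
  have h2 : Algebra.adjoin k0 (Set.range (fun s => algebraMap κ F (cf s))) ≤
      (IsScalarTower.toAlgHom k0 κ F).range := by
    rw [Algebra.adjoin_le_iff]
    rintro _ ⟨z, rfl⟩
    exact ⟨cf z, rfl⟩
  obtain ⟨P, hP0, hP⟩ := hal
  let A0 := Algebra.adjoin k0 (Set.range (fun s => algebraMap κ F (cf s)))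
  have hex : ∀ z : A0, ∃ w : κ, algebraMap κ F w = z.1 := fun z => h2 z.2
  choose g hg using hex
  have hinj := (algebraMap κ F).injective
  let ψ : A0 →+* κ :=
    { toFun := g
      map_one' := hinj (by rw [hg, map_one]; rfl)
      map_mul' := fun a b => hinj (by rw [map_mul, hg, hg, hg]; rfl)
      map_zero' := hinj (by rw [hg, map_zero]; rfl)
      map_add' := fun a b => hinj (by rw [map_add, hg, hg, hg]; rfl) }
  have hψ : (algebraMap κ F).comp ψ = algebraMap A0 F := by
    ext z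
    exact hg z
  have hψinj : Function.Injective ψ := by
    intro z z' hz
    apply Subtype.ext
    rw [← hg z, ← hg z']
    exact congrArg _ hz
  refine ⟨P.map ψ, (Polynomial.map_ne_zero_iff hψinj).mpr hP0, ?_⟩
  rw [Polynomial.aeval_def, Polynomial.eval₂_map, hψ]
  exact hP

theorem step_abs (h1 : PDer) (h2 : PCount) (k0 κ F : Type) [Field k0] [Field κ] [Field F]
    [Algebra k0 κ] [Algebra κ F] [Algebra k0 F] [IsScalarTower k0 κ F] [IsAlgClosed κ]
    (p : ℕ) [Fact p.Prime] [CharP κ p] (n N B m : ℕ) (hnN : n ≤ N) (hBm : B ≤ m + 1)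
    (hn : n ≤ (m + 2 - B) * (p - 1)) (L0 : Fin (N + 1) → Fin (n + 1) → k0)
    (hL0 : ∀ S : Finset (Fin (N + 1)), n + 1 ≤ S.card → Submodule.span k0 (L0 '' S) = ⊤)
    (blk : Fin (N + 1) → Fin B) (Φ : Type) [Fintype Φ] (e : Φ → ℕ) (he : ∀ φ, p - 1 ≤ e φ)
    (grp : Φ → Fin m) (cf : (Σ φ : Φ, It (Fin (n + 1)) (e φ)) → κ)
    (hcf : AlgebraicIndependent k0 cf) (x : Fin (n + 1) → F) (j0 : Fin (n + 1)) (hx0 : x j0 = 1)
    (hb : ∀ a b, blk a = blk b → lx L0 x a ≠ 0 → lx L0 x b ≠ 0 →
      ∃ w : F, w ^ p = lx L0 x a / lx L0 x b)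
    (hc : ∀ c, ∃ φ, grp φ = c ∧ ∃ w : F, w ^ p =
      ∑ μ : It (Fin (n + 1)) (e φ), algebraMap κ F (cf ⟨φ, μ⟩) * ∏ j, x j ^ (μ.1 j)) :
    ∀ j, ∃ w : F, w ^ p = x j := by
  classical
  have hchar : CharP F p := charP_of_injective_algebraMap (algebraMap κ F).injective p
  have hp2 : 2 ≤ p := (Fact.out : p.Prime).two_le
  have hp0 : 0 < p := by omega
  have hκP : ∀ c : κ, algebraMap κ F c ∈ Pw F p := by
    intro c
    obtain ⟨w, hw⟩ := IsAlgClosed.exists_pow_nat_eq c hp0
    exact ⟨algebraMap κ F w, by rw [← map_pow, hw]⟩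
  have hkP : ∀ c : k0, algebraMap k0 F c ∈ Pw F p := by
    intro c
    rw [IsScalarTower.algebraMap_apply k0 κ F]
    exact hκP _
  -- the forms which vanish
  set K : Finset (Fin (N + 1)) := Finset.univ.filter (fun a => lx L0 x a = 0) with hK
  have hKn : K.card ≤ n := by
    by_contra hcon
    push Not at hcon
    have h3 := lin_sub L0 x K (hL0 K hcon) ⊥ (fun a ha => by
      rw [hK, Finset.mem_filter] at ha
      rw [ha.2]
      exact zero_mem _) j0
    rw [Submodule.mem_bot, hx0] at h3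
    exact one_ne_zero h3
  have hKc : n + 1 - K.card ≤ (Kᶜ).card := by
    rw [Finset.card_compl, Fintype.card_fin]
    omega
  obtain ⟨T, hTK, hTc⟩ := Finset.exists_subset_card_eq hKc
  have hT0 : ∀ a ∈ T, lx L0 x a ≠ 0 := by
    intro a ha h
    have h3 := hTK ha
    rw [Finset.mem_compl, hK, Finset.mem_filter] at h3
    exact h3 ⟨Finset.mem_univ a, h⟩
  have hdisj : Disjoint K T := by
    rw [Finset.disjoint_left]
    intro a ha ha'
    exact (Finset.mem_compl.1 (hTK ha')) ha
  have hKT : Submodule.span k0 (L0 '' (K ∪ T : Finset (Fin (N + 1)))) = ⊤ := by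
    refine hL0 (K ∪ T) ?_
    rw [Finset.card_union_of_disjoint hdisj]
    omega
  have hlin : ∀ M : Subfield F, (∀ c : k0, algebraMap k0 F c ∈ M) → ∀ z : F, z ≠ 0 →
      (∀ a ∈ T, lx L0 x a / z ∈ M) → ∀ j, x j ∈ M := by
    intro M hM z hz h j
    have h3 : ∀ j, x j / z ∈ M := lin_field L0 x (K ∪ T) hKT M hM z (by
      intro a ha
      rcases Finset.mem_union.1 ha with ha' | ha'
      · rw [hK, Finset.mem_filter] at ha'
        rw [ha'.2, zero_div]
        exact zero_mem _
      · exact h a ha')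
    have h4 : x j = (x j / z) / (x j0 / z) := by
      rw [hx0]
      field_simp
    rw [h4]
    exact div_mem (h3 j) (h3 j0)
  -- the blocks
  set I : Finset (Fin B) := T.image blk with hI
  have hρ : ∀ b, ∃ a, b ∈ I → a ∈ T ∧ blk a = b := by
    intro b
    by_cases hbI : b ∈ I
    · obtain ⟨a, ha, hab⟩ := Finset.mem_image.1 hbI
      exact ⟨a, fun _ => ⟨ha, hab⟩⟩
    · exact ⟨0, fun h => absurd h hbI⟩
  choose ρ hρ using hρ
  have hTne : T.Nonempty := Finset.card_pos.1 (by omega)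
  obtain ⟨τ0, hτ0⟩ := hTne
  set b1 : Fin B := blk τ0 with hb1
  have hb1I : b1 ∈ I := Finset.mem_image_of_mem blk hτ0
  let z : Fin B → F := fun b => lx L0 x (ρ b)
  have hz : ∀ b ∈ I, z b ≠ 0 := fun b hbI => hT0 _ (hρ b hbI).1
  let U : Fin B → F := fun b => z b / z b1
  let h : Fin (N + 1) → F := fun τ => lx L0 x τ / z (blk τ)
  have hblk : ∀ τ ∈ T, blk τ ∈ I := fun τ hτ => Finset.mem_image_of_mem blk hτ
  have hhP : ∀ τ ∈ T, h τ ∈ Pw F p := by
    intro τ hτ
    exact hb τ (ρ (blk τ)) (hρ _ (hblk τ hτ)).2.symm (hT0 τ hτ) (hz _ (hblk τ hτ))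
  have hfac : ∀ τ ∈ T, lx L0 x τ / z b1 = h τ * U (blk τ) := by
    intro τ hτ
    show _ = lx L0 x τ / z (blk τ) * (z (blk τ) / z b1)
    rw [div_mul_div_cancel₀ (hz _ (hblk τ hτ))]
  by_cases hall : ∀ b ∈ I, U b ∈ Pw F p
  · intro j
    exact hlin (Pw F p) hkP (z b1) (hz _ hb1I) (fun τ hτ => by
      rw [hfac τ hτ]
      exact mul_mem (hhP τ hτ) (hall _ (hblk τ hτ))) j
  exfalso
  push Not at hall
  obtain ⟨b2, hb2I, hU2⟩ := hall
  have hU1 : U b1 = 1 := div_self (hz _ hb1I)
  have hb12 : b2 ≠ b1 := by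
    intro hh
    apply hU2
    rw [hh, hU1]
    exact one_mem _
  obtain ⟨D, hD⟩ := h1 F p (U b2) (fun y hy => hU2 ⟨y, hy⟩)
  have hDk : ∀ c : k0, D (algebraMap k0 F c) = 0 := fun c => D_Pw D (hkP c)
  have hDκ : ∀ c : κ, D (algebraMap κ F c) = 0 := fun c => D_Pw D (hκP c)
  have hj1 : ∃ j1, D (x j1) ≠ 0 := by
    by_contra hcon
    push Not at hcon
    have h3 : ∀ a, D (lx L0 x a) = 0 := by
      intro a
      unfold lx
      rw [map_sum]
      refine Finset.sum_eq_zero fun j _ => ?_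
      rw [Derivation.leibniz, hcon, hDk, smul_zero, smul_zero, add_zero]
    have h4 : D (U b2) = 0 := by
      show D (lx L0 x (ρ b2) / lx L0 x (ρ b1)) = 0
      rw [Derivation.leibniz_div, h3, h3, smul_zero, smul_zero, sub_zero, smul_zero]
    rw [h4] at hD
    exact zero_ne_one hD
  obtain ⟨j1, hj1⟩ := hj1
  set δ : F := D (x j1) with hδ
  let D' : Derivation ℤ F F := δ⁻¹ • D
  have hD'1 : D' (x j1) = 1 := by
    show δ⁻¹ * D (x j1) = 1
    exact inv_mul_cancel₀ hj1
  have hD'0 : ∀ a, D a = 0 → D' a = 0 := by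
    intro a ha
    show δ⁻¹ * D a = 0
    rw [ha, mul_zero]
  -- transcendence
  have htr : Transcendental κ (x j1) := by
    intro hal
    have hint := hal.isIntegral
    have h3 := minpoly.mem_range_of_degree_eq_one κ (x j1)
      (IsAlgClosed.degree_eq_one_of_irreducible κ (minpoly.irreducible hint))
    obtain ⟨c, hc'⟩ := h3
    apply hj1
    rw [hδ, ← hc']
    exact hDκ c
  have hcfF : AlgebraicIndependent k0 (fun s => algebraMap κ F (cf s)) :=
    hcf.map' (f := IsScalarTower.toAlgHom k0 κ F) (algebraMap κ F).injective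
  have hind : AlgebraicIndependent k0
      (fun o : Option (Σ φ : Φ, It (Fin (n + 1)) (e φ)) =>
        o.elim (x j1) (fun s => algebraMap κ F (cf s))) :=
    (hcfF.option_iff_transcendental (x j1)).mpr (transc_adjoin cf (x j1) htr)
  choose φc hφ1 hφ2 using hc
  have hφinj : Function.Injective φc := by
    intro c c' hcc
    rw [← hφ1 c, ← hφ1 c', hcc]
  let A : Finset Φ := Finset.univ.image φc
  have hAcard : A.card = m := by
    rw [Finset.card_image_of_injective _ hφinj, Finset.card_univ, Fintype.card_fin]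
  have hA : ∀ φ ∈ A, D' (∑ μ : It (Fin (n + 1)) (e φ),
      algebraMap κ F (cf ⟨φ, μ⟩) * ∏ j, x j ^ (μ.1 j)) = 0 := by
    intro φ hφ
    obtain ⟨c, _, rfl⟩ := Finset.mem_image.1 hφ
    exact hD'0 _ (D_Pw D (hφ2 c))
  -- the field
  let Θ1 : Finset F := (T \ I.image ρ).image h
  let Θ2 : Finset F := (I.erase b1).image U
  let Θ3 : Finset F := (((I.erase b1).erase b2) ×ˢ Finset.Ico 1 p).image
    (fun q => D^[q.2] (U q.1))
  let Θ : Finset F := Θ1 ∪ Θ2 ∪ Θ3
  have hΘcard : Θ.card ≤ (T.card - I.card) + (I.card - 1) + (I.card - 1 - 1) * (p - 1) := by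
    refine (Finset.card_union_le _ _).trans (add_le_add ?_ ?_)
    · refine (Finset.card_union_le _ _).trans (add_le_add ?_ ?_)
      · refine Finset.card_image_le.trans (le_of_eq ?_)
        rw [Finset.card_sdiff_of_subset, Finset.card_image_of_injOn]
        · intro b hbI b' hbI' hbb
          rw [← (hρ b hbI).2, ← (hρ b' hbI').2, hbb]
        · intro a ha
          obtain ⟨b, hbI, rfl⟩ := Finset.mem_image.1 ha
          exact (hρ b hbI).1
      · refine Finset.card_image_le.trans (le_of_eq ?_)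
        rw [Finset.card_erase_of_mem hb1I]
    · refine Finset.card_image_le.trans (le_of_eq ?_)
      rw [Finset.card_product, Finset.card_erase_of_mem, Finset.card_erase_of_mem hb1I,
        Nat.card_Ico]
      exact Finset.mem_erase.2 ⟨hb12, hb2I⟩
  let θ : Fin Θ.card → F := fun i => (Θ.equivFin.symm i).1
  have hθ : ∀ a ∈ Θ, a ∈ Set.range θ := by
    intro a ha
    exact ⟨Θ.equivFin ⟨a, ha⟩, by simp [θ]⟩
  set E : IntermediateField k0 F := IntermediateField.adjoin k0 (Set.range θ) with hE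
  have hM : ∀ a ∈ Θ, a ∈ Ac E := fun a ha =>
    Ac_of_mem (IntermediateField.subset_adjoin k0 _ (hθ a ha))
  have hMk : ∀ c : k0, algebraMap k0 F c ∈ Ac E := fun c => Ac_of_mem (E.algebraMap_mem c)
  have hSk : ∀ r, ∀ c : k0, algebraMap k0 F c ∈ Sf D (Ac E) r := fun r c =>
    Sf_const D (Ac E) (hMk c) (hDk c) r
  have hSh : ∀ r, ∀ τ ∈ T, h τ ∈ Sf D (Ac E) r := by
    intro r τ hτ
    by_cases hτρ : τ ∈ I.image ρ
    · obtain ⟨b, hbI, rfl⟩ := Finset.mem_image.1 hτρ
      have h3 : h (ρ b) = 1 := by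
        show lx L0 x (ρ b) / lx L0 x (ρ (blk (ρ b))) = 1
        rw [(hρ b hbI).2]
        exact div_self (hz b hbI)
      rw [h3]
      exact one_mem _
    · refine Sf_const D (Ac E) (hM _ ?_) (D_Pw D (hhP τ hτ)) r
      refine Finset.mem_union_left _ (Finset.mem_union_left _ ?_)
      exact Finset.mem_image_of_mem h (Finset.mem_sdiff.2 ⟨hτ, hτρ⟩)
  have hSU : ∀ b ∈ I, U b ∈ Sf D (Ac E) (p - 1) := by
    intro b hbI
    by_cases e1 : b = b1
    · rw [e1, hU1]
      exact one_mem _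
    have hUM : U b ∈ Ac E := hM _ (Finset.mem_union_left _ (Finset.mem_union_right _
      (Finset.mem_image_of_mem U (Finset.mem_erase.2 ⟨e1, hbI⟩))))
    by_cases e2 : b = b2
    · refine Sf_of_D D (Ac E) hUM (fun r => ?_) _
      rw [e2, hD]
      exact one_mem _
    · refine Sf_of_iter D (Ac E) _ _ fun s hs => ?_
      rcases Nat.eq_zero_or_pos s with hs0 | hs0
      · rw [hs0]
        exact hUM
      · refine hM _ (Finset.mem_union_right _ ?_)
        refine Finset.mem_image.2 ⟨(b, s), Finset.mem_product.2 ⟨?_, ?_⟩, rfl⟩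
        · exact Finset.mem_erase.2 ⟨e2, Finset.mem_erase.2 ⟨e1, hbI⟩⟩
        · exact Finset.mem_Ico.2 ⟨hs0, by show s < p; omega⟩
  have hSx : ∀ j, x j ∈ Sf D (Ac E) (p - 1) :=
    hlin _ (hSk _) (z b1) (hz _ hb1I) (fun τ hτ => by
      rw [hfac τ hτ]
      exact mul_mem (hSh _ τ hτ) (hSU _ (hblk τ hτ)))
  obtain ⟨P, hP⟩ : ∃ P, p = P + 2 := ⟨p - 2, by omega⟩
  have hp1 : p - 1 = P + 1 := by omega
  have hδS : δ ∈ Sf D (Ac E) P := by
    have h3 := hSx j1
    rw [hp1] at h3
    exact ((Sf_succ_mem D (Ac E)).1 h3).2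
  have hfin := h2 k0 F p n Θ.card Φ e he (fun s => algebraMap κ F (cf s)) D'
    (fun s => hD'0 _ (hDκ _)) x j0 j1 hx0 hD'1 hind A hA θ (fun t ht j => by
      have h3 := hSx j
      rw [hp1] at h3
      have h4 := iter_smul D (Ac E) P δ (x j) hδS h3 t (by omega)
      exact Sf_le D (Ac E) _ h4)
  rw [hAcard] at hfin
  -- arithmetic
  have hI2 : 2 ≤ I.card := by
    have h3 : ({b1, b2} : Finset (Fin B)) ⊆ I := by
      intro b hbb
      rw [Finset.mem_insert, Finset.mem_singleton] at hbb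
      rcases hbb with rfl | rfl
      · exact hb1I
      · exact hb2I
    have h4 := Finset.card_le_card h3
    rwa [Finset.card_pair hb12.symm] at h4
  have hIB : I.card ≤ B := by
    have := Finset.card_le_univ I
    rwa [Fintype.card_fin] at this
  have hIT : I.card ≤ T.card := Finset.card_image_le
  obtain ⟨i, hi⟩ : ∃ i, I.card = i + 2 := ⟨I.card - 2, by omega⟩
  obtain ⟨B', hB'⟩ : ∃ B', B = B' + 2 := ⟨B - 2, by omega⟩
  have e1 : I.card - 1 - 1 = i := by omega
  have e2 : m + 2 - B = m - B' := by omega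
  rw [e1] at hΘcard
  rw [e2] at hn
  have e3 : i * (p - 1) ≤ B' * (p - 1) := Nat.mul_le_mul_right _ (by omega)
  have e4 : (m - B') * (p - 1) + B' * (p - 1) = m * (p - 1) := by
    rw [← Nat.add_mul]
    congr 1
    omega
  omega

end Pool.Agent.Y170.CP
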