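import Mathlib
import Pool.Agent.Z894.CP.Stm
import Pool.Agent.Y170.CP.StepA

/-!
# Project CP, part 3: one step
-/

set_option autoImplicit false

open MvPolynomial

namespace Pool.Agent.Y170.CP

open Pool.Agent.TH922.KC Pool.Agent.Z894.CP

theorem step_holds (h1 : Pool.Agent.Z894.CP.PDer) (h2 : Pool.Agent.Z894.CP.PCount) :
    Pool.Agent.Z894.CP.PStep := by
  intro k0 κ Ω _ _ _ _ _ _ p _ _ n N B m hnN hBm hn L0 hL0 blk Φ _ e he grp cf hcf F y j0 hy0
    hyF hb hc
  let ia : Algebra k0 F := ((algebraMap κ F).comp (algebraMap k0 κ)).toAlgebra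
  have ib : IsScalarTower k0 κ F := IsScalarTower.of_algebraMap_eq' rfl
  let x : Fin (n + 1) → F := fun j => ⟨y j / y j0, hyF j⟩
  have hx : ∀ j, ((x j : F) : Ω) = y j / y j0 := fun j => rfl
  have hx0 : x j0 = 1 := Subtype.ext (div_self hy0)
  have hlx : ∀ a, ((lx L0 x a : F) : Ω) = lv (κ := κ) L0 y a / y j0 := by
    intro a
    unfold lx lv
    rw [Finset.sum_div]
    have : ((∑ j, algebraMap k0 F (L0 a j) * x j : F) : Ω) =
        ∑ j, ((algebraMap k0 F (L0 a j) : F) : Ω) * (x j : Ω) := by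
      push_cast
      rfl
    rw [this]
    refine Finset.sum_congr rfl fun j _ => ?_
    rw [hx, mul_div_assoc]
    rfl
  have hlx0 : ∀ a, lx L0 x a ≠ 0 → lv (κ := κ) L0 y a ≠ 0 := by
    intro a h h'
    apply h
    apply Subtype.ext
    rw [hlx, h', zero_div]
    rfl
  have key := step_abs h1 h2 k0 κ F p n N B m hnN hBm hn L0 hL0 blk Φ e he grp cf hcf x j0 hx0
    (by
      intro a b hab ha hb'
      obtain ⟨w, hwF, hw⟩ := hb a b hab (hlx0 a ha) (hlx0 b hb')
      refine ⟨⟨w, hwF⟩, Subtype.ext ?_⟩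
      have e1 : ((lx L0 x a / lx L0 x b : F) : Ω) = ((lx L0 x a : F) : Ω) / ((lx L0 x b : F) : Ω) := by
        push_cast
        rfl
      have e2 : (((⟨w, hwF⟩ : F) ^ p : F) : Ω) = w ^ p := by
        push_cast
        rfl
      rw [e1, e2, hlx, hlx, div_div_div_cancel_right₀ hy0]
      exact hw)
    (by
      intro c
      obtain ⟨φ, hφ, w, hwF, hw⟩ := hc c
      refine ⟨φ, hφ, ⟨w, hwF⟩, Subtype.ext ?_⟩
      have e2 : (((⟨w, hwF⟩ : F) ^ p : F) : Ω) = w ^ p := by
        push_cast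
        rfl
      rw [e2, hw]
      unfold pv
      rw [Finset.sum_div]
      have e3 : ((∑ μ : It (Fin (n + 1)) (e φ), algebraMap κ F (cf ⟨φ, μ⟩) *
          ∏ j, x j ^ (μ.1 j) : F) : Ω) = ∑ μ : It (Fin (n + 1)) (e φ),
          ((algebraMap κ F (cf ⟨φ, μ⟩) : F) : Ω) * ∏ j, (x j : Ω) ^ (μ.1 j) := by
        push_cast
        rfl
      rw [e3]
      refine Finset.sum_congr rfl fun μ _ => ?_
      have e4 : ∏ j, ((x j : F) : Ω) ^ (μ.1 j) = (∏ j, y j ^ (μ.1 j)) / y j0 ^ (e φ) := by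
        have e5 : ∑ j, μ.1 j = e φ := by
          rw [← Finsupp.degree_eq_sum]
          exact μ.2
        have e6 : y j0 ^ (e φ) = ∏ j, y j0 ^ (μ.1 j) := by
          rw [Finset.prod_pow_eq_pow_sum, e5]
        rw [e6, ← Finset.prod_div_distrib]
        refine Finset.prod_congr rfl fun j _ => ?_
        rw [hx, div_pow]
      rw [e4, mul_div_assoc]
      rfl)
  intro j
  obtain ⟨w, hw⟩ := key j
  refine ⟨w, w.2, ?_⟩
  rw [← hx, ← hw]
  push_cast
  rfl

end Pool.Agent.Y170.CP
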